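import Pool.Agent.N800.AG.D

/-!
# Accessible graphs have no induced cycle of length at least six (MP_12e671_al, Q1)

The definitions are those of the problem file: `numComp G T` is the number `c_G(T)` of connected
components of the induced subgraph on the complement of `T`; `IsCutSet G T` says
`c_G(T \ {i}) < c_G(T)` for all `i` in `T`; `Unmixed G` says `c_G(T) - |T| = c_G(∅)` for every cut
set `T` (for the binomial edge ideal `J_G` this is unmixedness); `Accessible G` says that `G` is
unmixed and that every nonempty cut set `T` contains a `t` such that `T \ {t}` is a cut set.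
-/

set_option autoImplicit false

namespace Pool.Agent.Results.MP_12e671_al.NoLongInducedCycle

variable {V : Type*}

/-- `c_G(T)`: the number of connected components of `G \ T` -/
noncomputable def numComp (G : SimpleGraph V) (T : Set V) : ℕ :=
  Nat.card (G.induce Tᶜ).ConnectedComponent

/-- `T` is a cut set of `G` -/
def IsCutSet (G : SimpleGraph V) (T : Set V) : Prop :=
  ∀ i ∈ T, numComp G (T \ {i}) < numComp G T

/-- `c_G(T) - |T| = c_G(∅)` for every cut set `T` -/
def Unmixed (G : SimpleGraph V) : Prop :=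
  ∀ T : Set V, IsCutSet G T → (numComp G T : ℤ) - T.ncard = numComp G ∅

/-- accessible graphs -/
def Accessible (G : SimpleGraph V) : Prop :=
  Unmixed G ∧ ∀ T : Set V, IsCutSet G T → T.Nonempty → ∃ t ∈ T, IsCutSet G (T \ {t})

open Pool.Agent.N800.AG
open scoped Classical

section bridge

variable [Fintype V] {G : SimpleGraph V}

theorem cn_of_reachable {T : Finset V} (u v : ((T : Set V)ᶜ : Set V))
    (h : (G.induce (T : Set V)ᶜ).Reachable u v) : Cn G T u v := by
  rw [SimpleGraph.reachable_iff_reflTransGen] at h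
  induction h with
  | refl => exact Cn.rfl'
  | @tail b c _ hs ih =>
    refine ih.step hs ?_ ?_
    · exact fun h' => b.2 (by simpa using h')
    · exact fun h' => c.2 (by simpa using h')

theorem reachable_of_cn {T : Finset V} {u v : V} (hu : u ∈ ((T : Set V)ᶜ : Set V))
    (hv : v ∈ ((T : Set V)ᶜ : Set V)) (h : Cn G T u v) :
    (G.induce (T : Set V)ᶜ).Reachable ⟨u, hu⟩ ⟨v, hv⟩ := by
  induction h with
  | refl => exact SimpleGraph.Reachable.refl _
  | @tail b c hb hs ih =>
    have hb' : b ∈ ((T : Set V)ᶜ : Set V) := by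
      intro h'
      exact hs.2.1 (by simpa using h')
    refine (ih hb').trans (SimpleGraph.Adj.reachable ?_)
    exact hs.1

theorem numComp_eq (T : Finset V) : numComp G (T : Set V) = cc G T := by
  unfold numComp cc
  have hmem : ∀ v : ((T : Set V)ᶜ : Set V), cl G T v ∈ comps G T := by
    intro v
    exact cl_mem_comps (fun h' => v.2 (by simpa using h'))
  let f : (G.induce (T : Set V)ᶜ).ConnectedComponent → {D // D ∈ comps G T} :=
    fun c => Quot.lift
      (fun v : ((T : Set V)ᶜ : Set V) => (⟨cl G T v, hmem v⟩ : {D // D ∈ comps G T}))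
      (fun u v h => Subtype.ext (cl_eq_iff.2 (cn_of_reachable u v h))) c
  have hf : Function.Bijective f := by
    constructor
    · intro c c'
      induction c using SimpleGraph.ConnectedComponent.ind with
      | _ u =>
        induction c' using SimpleGraph.ConnectedComponent.ind with
        | _ v =>
          intro h
          have h1 : cl G T u = cl G T v := congrArg Subtype.val h
          exact SimpleGraph.ConnectedComponent.sound
            (reachable_of_cn u.2 v.2 (cl_eq_iff.1 h1))
    · rintro ⟨D, hD⟩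
      obtain ⟨v, hv, rfl⟩ := mem_comps.1 hD
      exact ⟨(G.induce (T : Set V)ᶜ).connectedComponentMk
        ⟨v, fun h' => hv (by simpa using h')⟩, rfl⟩
  rw [Nat.card_congr (Equiv.ofBijective f hf), Nat.card_eq_fintype_card, Fintype.card_coe]

theorem isCutSet_iff (T : Finset V) : IsCutSet G (T : Set V) ↔ Valid G T := by
  unfold IsCutSet Valid
  constructor
  · intro h t ht
    have := h t (by simpa using ht)
    rwa [← Finset.coe_erase, numComp_eq, numComp_eq] at this
  · intro h t ht
    have := h t (by simpa using ht)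
    rwa [← Finset.coe_erase, numComp_eq, numComp_eq]

theorem unm_of {G : SimpleGraph V} (h : Unmixed G) : Unm G := by
  intro T hT
  have h1 := h T ((isCutSet_iff T).2 hT)
  have h2 := numComp_eq (G := G) (∅ : Finset V)
  rw [Finset.coe_empty] at h2
  rw [numComp_eq, h2, Set.ncard_coe_finset] at h1
  omega

theorem acc_of {G : SimpleGraph V} (h : Accessible G) :
    ∀ T : Finset V, Valid G T → T.Nonempty → ∃ t ∈ T, Valid G (T.erase t) := by
  intro T hT hne
  obtain ⟨t, ht, h1⟩ := h.2 T ((isCutSet_iff T).2 hT) (by simpa using hne)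
  refine ⟨t, by simpa using ht, ?_⟩
  rw [← Finset.coe_erase] at h1
  exact (isCutSet_iff _).1 h1

end bridge

theorem mod_cases (n x : ℕ) (h : x < 2 * n) : x % n = if x < n then x else x - n := by
  split_ifs with h1
  · exact Nat.mod_eq_of_lt h1
  · rw [Nat.mod_eq_sub_mod (by omega)]
    exact Nat.mod_eq_of_lt (by omega)

/-- adjacency in the cycle, by values -/
theorem cyc_adj {n : ℕ} (hn : 6 ≤ n) (i j : Fin n) :
    (SimpleGraph.cycleGraph n).Adj i j ↔
      (i.val + 1 = j.val ∨ j.val + 1 = i.val ∨ (i.val = 0 ∧ j.val + 1 = n) ∨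
        (j.val = 0 ∧ i.val + 1 = n)) := by
  rw [SimpleGraph.cycleGraph_adj', Fin.val_sub, Fin.val_sub]
  have hi := i.2
  have hj := j.2
  rw [mod_cases n _ (by omega), mod_cases n _ (by omega)]
  split_ifs <;> omega

/-- **MP_12e671_al, Q1 (negative answer).** An accessible finite graph has no induced cycle of
length at least six. -/
theorem result [Finite V] (G : SimpleGraph V) (hG : Accessible G) (n : ℕ) (hn : 6 ≤ n) :
    IsEmpty (SimpleGraph.cycleGraph n ↪g G) := by
  haveI := Fintype.ofFinite V
  refine ⟨fun f => ?_⟩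
  have h0n : 0 < n := by omega
  -- the vertices of the cycle
  obtain ⟨g, hg⟩ : ∃ g : ℕ → V, ∀ i (hi : i < n), g i = f ⟨i, hi⟩ :=
    ⟨fun i => if hi : i < n then f ⟨i, hi⟩ else f ⟨0, h0n⟩, fun i hi => by simp [hi]⟩
  have hinj : ∀ i j, i < n → j < n → g i = g j → i = j := by
    intro i j hi hj h
    rw [hg i hi, hg j hj] at h
    have := f.injective h
    simpa using this
  have hadj : ∀ i j, i < n → j < n → (G.Adj (g i) (g j) ↔
      (i + 1 = j ∨ j + 1 = i ∨ (i = 0 ∧ j + 1 = n) ∨ (j = 0 ∧ i + 1 = n))) := by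
    intro i j hi hj
    rw [hg i hi, hg j hj, f.map_rel_iff, cyc_adj hn]
  -- the kept set
  set K : Finset V := Finset.univ.filter
    (fun v => ∃ i, (i = 0 ∨ i = 4 ∨ 6 ≤ i) ∧ i < n ∧ v = g i) with hK
  have memK : ∀ v, v ∈ K ↔ ∃ i, (i = 0 ∨ i = 4 ∨ 6 ≤ i) ∧ i < n ∧ v = g i := by
    intro v; simp [hK]
  have gK : ∀ i, i < n → (g i ∈ K ↔ (i = 0 ∨ i = 4 ∨ 6 ≤ i)) := by
    intro i hi
    rw [memK]
    constructor
    · rintro ⟨j, hj, hjn, h⟩
      rw [hinj i j hi hjn h]; exact hj
    · intro h
      exact ⟨i, h, hi, rfl⟩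
  have kc : ∀ v, v ∈ K → v ∉ Kᶜ := by
    intro v hv; simpa using hv
  have h4K : g 4 ∈ K := (gK 4 (by omega)).2 (by omega)
  have h0K : g 0 ∈ K := (gK 0 (by omega)).2 (by omega)
  -- the node of `g 4`
  have hnode4 : ∀ w, Cn G Kᶜ (g 4) w → w = g 4 := by
    intro w hw
    induction hw with
    | refl => rfl
    | @tail s t _ hst ih =>
      exfalso
      rw [ih] at hst
      have htK : t ∈ K := by
        have := hst.2.2
        simpa using this
      obtain ⟨j, hj, hjn, rfl⟩ := (memK t).1 htK
      have := (hadj 4 j (by omega) hjn).1 hst.1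
      omega
  -- the node of `g 0`
  have hnode0 : ∀ m, m + 7 ≤ n → Cn G Kᶜ (g 0) (g (n - 1 - m)) := by
    intro m
    induction m with
    | zero =>
      intro h
      refine Cn.one ((hadj 0 (n - 1 - 0) h0n (by omega)).2 (by omega)) (kc _ h0K)
        (kc _ ((gK _ (by omega)).2 (by omega)))
    | succ m ih =>
      intro h
      refine (ih (by omega)).step
        ((hadj (n - 1 - m) (n - 1 - (m + 1)) (by omega) (by omega)).2 (by omega))
        (kc _ ((gK _ (by omega)).2 (by omega))) (kc _ ((gK _ (by omega)).2 (by omega)))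
  have hP : Pat G K (g 1) (g 2) (g 3) (g 5) := by
    refine ⟨?_, ?_, ?_, ?_, ?_, ?_, ?_, ?_, ?_, ?_⟩
    · rw [gK 1 (by omega)]; omega
    · rw [gK 2 (by omega)]; omega
    · rw [gK 3 (by omega)]; omega
    · rw [gK 5 (by omega)]; omega
    · rintro (h | ⟨k, hk, h1, h2⟩)
      · have := (hadj 1 3 (by omega) (by omega)).1 h
        omega
      · obtain ⟨_, p, hp, hp1⟩ := mem_Nb.1 h1
        obtain ⟨_, q, hq, hq3⟩ := mem_Nb.1 h2
        obtain ⟨i, hi, hin, rfl⟩ := (memK p).1 (node_sub hk hp)
        obtain ⟨j, hj, hjn, rfl⟩ := (memK q).1 (node_sub hk hq)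
        have e1 := (hadj i 1 hin (by omega)).1 hp1
        have e2 := (hadj j 3 hjn (by omega)).1 hq3
        have hi0 : i = 0 := by omega
        have hj4 : j = 4 := by omega
        subst hi0 hj4
        have hc : Cn G Kᶜ (g 4) (g 0) := by
          rw [node_eq hk hq] at hp
          exact mem_cl.1 hp
        have := hinj 0 4 (by omega) (by omega) (hnode4 _ hc)
        omega
    · rintro (h | ⟨k, hk, h1, h2⟩)
      · have := (hadj 2 5 (by omega) (by omega)).1 h
        omega
      · obtain ⟨_, p, hp, hp1⟩ := mem_Nb.1 h1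
        obtain ⟨i, hi, hin, rfl⟩ := (memK p).1 (node_sub hk hp)
        have e1 := (hadj i 2 hin (by omega)).1 hp1
        omega
    · exact Or.inl ((hadj 1 2 (by omega) (by omega)).2 (by omega))
    · exact Or.inl ((hadj 3 2 (by omega) (by omega)).2 (by omega))
    · refine ⟨cl G Kᶜ (g 0), cl_mem_nodes h0K, mem_Nb.2 ⟨?_, g 0, self_mem_cl,
        (hadj 0 1 (by omega) (by omega)).2 (by omega)⟩, mem_Nb.2 ⟨?_, ?_⟩⟩
      · rw [gK 1 (by omega)]; omega
      · rw [gK 5 (by omega)]; omega
      · rcases Nat.eq_or_lt_of_le hn with h6 | h7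
        · exact ⟨g 0, self_mem_cl, (hadj 0 5 (by omega) (by omega)).2 (by omega)⟩
        · have h8 := hnode0 (n - 7) (by omega)
          have e : n - 1 - (n - 7) = 6 := by omega
          rw [e] at h8
          exact ⟨g 6, mem_cl.2 h8, (hadj 6 5 (by omega) (by omega)).2 (by omega)⟩
    · refine ⟨cl G Kᶜ (g 4), cl_mem_nodes h4K, mem_Nb.2 ⟨?_, g 4, self_mem_cl,
        (hadj 4 3 (by omega) (by omega)).2 (by omega)⟩, mem_Nb.2 ⟨?_, g 4, self_mem_cl,
        (hadj 4 5 (by omega) (by omega)).2 (by omega)⟩⟩
      · rw [gK 3 (by omega)]; omega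
      · rw [gK 5 (by omega)]; omega
  exact noPat (unm_of hG.1) (acc_of hG) K (g 1) (g 2) (g 3) (g 5) hP

end Pool.Agent.Results.MP_12e671_al.NoLongInducedCycle
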